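import Pool.Agent.X164.BO.Conv
import Pool.Agent.X164.BO.Body

/-!
# Q1 when `2A - 2A` contains a convex coset progression, proper or not

A convex coset progression in `ℤ/N` is a set `P = H + {n_1 a_1 + … + n_d a_d : n ∈ ℤ^d ∩ B}` with a subgroup `H`, a
symmetric convex body `B ⊆ ℝ^d` and arbitrary `a_1, …, a_d ∈ ℤ/N`. No properness is assumed: an element of `P` may have
arbitrarily many representations. The theorem says that `P` contains a Bohr set with at most
`215 d + 366 + 5 log (1/β) / log R` frequencies and radius `1 / (8 R)`, for all `R ≥ d + 4`, where `β = |P| / N`; hence the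
conclusion of Q1 holds for `A` as soon as `2A - 2A` contains a convex coset progression of dimension `O(log (1/α))` and of
density `exp (- O(log (1/α) log log (1/α)))`.

For proper coset progressions (with a box `B`) this is the starting result `ProperProgressions`, which is used. Steps:
an improper progression of `ℤ/N` is lifted to a proper progression of almost the same density of `ℤ/(N Q)`, with a large
prime `Q`, random lifts of the generators and one more generator (`X164/BO/Lift`, `X164/BO/Imp`); a convex progression is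
covered by `d^O(d)` translates of a box progression inside it (discrete John theorem of the starting library and
Ruzsa's covering lemma, `X164/BO/Conv`).
-/

set_option autoImplicit false

namespace Pool.Agent.Results.MP_169871_nt.ImproperProgressions

open Pool.Agent.TH858

/-- The Bohr set `B(Γ, ε) = {x ∈ ℤ/N : ‖γ x / N‖ ≤ ε for all γ ∈ Γ}`; the norm is the distance to the nearest
integer. -/
def bohr {N : ℕ} (Γ : Finset (ZMod N)) (ε : ℝ) : Set (ZMod N) :=
  {x | ∀ γ ∈ Γ, |((γ * x).val : ℝ) / (N : ℝ) - ((round (((γ * x).val : ℝ) / (N : ℝ)) : ℤ) : ℝ)| ≤ ε}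

/-- The convex coset progression `{h + n_1 a_1 + … + n_d a_d : h ∈ H, n ∈ ℤ^d ∩ B}`. -/
def convProg {N d : ℕ} (H : AddSubgroup (ZMod N)) (a : Fin d → ZMod N) (B : Set (Fin d → ℝ)) :
    Set (ZMod N) :=
  {x | ∃ h ∈ H, ∃ n : Fin d → ℤ, (fun i => (n i : ℝ)) ∈ B ∧ x = h + ∑ i, (n i : ZMod N) * a i}

/-- Symmetric convex bodies of `ℝ^d`. -/
def IsBody {d : ℕ} (B : Set (Fin d → ℝ)) : Prop :=
  Convex ℝ B ∧ IsCompact B ∧ (interior B).Nonempty ∧ ∀ x ∈ B, -x ∈ B

/-- The set `2A - 2A`. -/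
def twoAMinusTwoA {N : ℕ} (A : Finset (ZMod N)) : Set (ZMod N) :=
  {x | ∃ a₁ ∈ A, ∃ a₂ ∈ A, ∃ a₃ ∈ A, ∃ a₄ ∈ A, x = a₁ + a₂ - a₃ - a₄}

/-- A convex coset progression contains a Bohr set of small dimension. -/
theorem part_one (N : ℕ) (hN : 0 < N) (H : AddSubgroup (ZMod N)) (d : ℕ) (a : Fin d → ZMod N)
    (B : Set (Fin d → ℝ)) (hB : IsBody B) (R : ℝ) (hR : (d : ℝ) + 4 ≤ R) :
    ∃ Γ : Finset (ZMod N),
      (Γ.card : ℝ) ≤ 215 * d + 366 + 5 * (Real.log ((N : ℝ) / ((convProg H a B).ncard : ℝ)) / Real.log R) ∧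
      bohr Γ (1 / (8 * R)) ⊆ convProg H a B := by
  classical
  have : NeZero N := ⟨hN.ne'⟩
  obtain ⟨S, hS, hSfin⟩ := Pool.Agent.X164.BO.body_seminorm B hB.1 hB.2.1 hB.2.2.1 hB.2.2.2
  obtain ⟨ψ, hψ⟩ : ∃ ψ : (Fin d → ℤ) →+ ZMod N, ∀ n, ψ n = ∑ i, (n i : ZMod N) * a i := by
    refine ⟨⟨⟨fun n => ∑ i, (n i : ZMod N) * a i, by simp⟩, fun n n' => ?_⟩, fun n => rfl⟩
    change ∑ i, (((n + n') i : ℤ) : ZMod N) * a i = _
    rw [← Finset.sum_add_distrib]
    refine Finset.sum_congr rfl fun i _ => ?_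
    rw [Pi.add_apply]
    push_cast
    ring
  set P : Finset (ZMod N) := Finset.univ.filter fun x => x ∈ convProg H a B with hP
  have hPc : (convProg H a B).ncard = P.card := by
    rw [← Set.ncard_coe_finset]
    congr 1
    ext x
    rw [hP, Finset.mem_coe, Finset.mem_filter]
    exact ⟨fun h => ⟨Finset.mem_univ _, h⟩, fun h => h.2⟩
  have h0B : (0 : Fin d → ℝ) ∈ B := (hS 0).mpr (by simp)
  have hP0 : P.Nonempty := by
    refine ⟨0, ?_⟩
    rw [hP, Finset.mem_filter]
    refine ⟨Finset.mem_univ _, 0, H.zero_mem, 0, ?_, by simp⟩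
    convert h0B using 1
    funext i
    simp
  obtain ⟨Γ, h1, h2⟩ := Pool.Agent.X164.BO.convex S (r := 1) zero_le_one (hSfin _) ψ H P hP0 (by
    intro x hx
    rw [hP, Finset.mem_filter] at hx
    obtain ⟨-, h, hh, n, hn, rfl⟩ := hx
    refine ⟨n, (hS _).mp hn, ?_⟩
    rw [hψ, add_sub_cancel_right]
    exact hh) R hR
  refine ⟨Γ, ?_, fun x hx => ?_⟩
  · rw [hPc]
    exact h1
  · obtain ⟨n, hn, hxn⟩ := h2 x fun g hg => hx g hg
    refine ⟨x - ψ n, hxn, n, (hS _).mpr hn, ?_⟩
    rw [hψ]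
    ring

/-- **Q1 when `2A - 2A` contains a convex coset progression, proper or not**. -/
theorem result :
    -- a convex coset progression contains a Bohr set of small dimension
    (∀ (N : ℕ), 0 < N → ∀ (H : AddSubgroup (ZMod N)) (d : ℕ) (a : Fin d → ZMod N)
      (B : Set (Fin d → ℝ)), IsBody B → ∀ R : ℝ, (d : ℝ) + 4 ≤ R →
      ∃ Γ : Finset (ZMod N),
        (Γ.card : ℝ) ≤ 215 * d + 366 +
          5 * (Real.log ((N : ℝ) / ((convProg H a B).ncard : ℝ)) / Real.log R) ∧
        bohr Γ (1 / (8 * R)) ⊆ convProg H a B) ∧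
    -- Q1 if `2A - 2A` contains such a progression `P` of dimension `d ≤ C log (1/α)` and of density at least
    -- `exp (- C log (1/α) log (2 + log (1/α)))`
    (∀ (C : ℝ), 0 < C → ∀ (N : ℕ), 0 < N → ∀ A : Finset (ZMod N), A.Nonempty →
      (A.card : ℝ) / (N : ℝ) ≤ 1 / 2 →
      ∀ (H : AddSubgroup (ZMod N)) (d : ℕ) (a : Fin d → ZMod N) (B : Set (Fin d → ℝ)), IsBody B →
      (d : ℝ) ≤ C * Real.log ((N : ℝ) / (A.card : ℝ)) →
      (convProg H a B ⊆ twoAMinusTwoA A →
        Real.log ((N : ℝ) / ((convProg H a B).ncard : ℝ)) ≤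
          C * Real.log ((N : ℝ) / (A.card : ℝ)) * Real.log (2 + Real.log ((N : ℝ) / (A.card : ℝ))) →
        ∃ (Γ : Finset (ZMod N)) (ε : ℝ), 0 < ε ∧
          (Γ.card : ℝ) ≤ (225 * C + 530) * Real.log ((N : ℝ) / (A.card : ℝ)) ∧
          (1 / (8 * (C + 6))) / Real.log ((N : ℝ) / (A.card : ℝ)) ≤ ε ∧
          bohr Γ ε ⊆ twoAMinusTwoA A) ∧
      -- `P` is the set `A`
      ((A : Set (ZMod N)) = convProg H a B →
        ∃ (Γ : Finset (ZMod N)) (ε : ℝ), 0 < ε ∧
          (Γ.card : ℝ) ≤ (215 * C + 540) * Real.log ((N : ℝ) / (A.card : ℝ)) ∧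
          (1 / (8 * (C + 6))) / Real.log ((N : ℝ) / (A.card : ℝ)) ≤ ε ∧
          bohr Γ ε ⊆ (A : Set (ZMod N)) ∧ bohr Γ ε ⊆ twoAMinusTwoA A)) := by
  refine ⟨part_one, fun C hC N hN A hAne hα H d a B hB hd => ?_⟩
  obtain ⟨l, hl⟩ : ∃ l : ℝ, l = Real.log ((N : ℝ) / (A.card : ℝ)) := ⟨_, rfl⟩
  rw [← hl] at hd ⊢
  have hNpos : (0 : ℝ) < N := by exact_mod_cast hN
  have hApos : (0 : ℝ) < A.card := by exact_mod_cast hAne.card_pos
  have h2 : (2 : ℝ) ≤ (N : ℝ) / (A.card : ℝ) := by
    rw [div_le_iff₀ hNpos] at hα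
    rw [le_div_iff₀ hApos]
    linarith
  have hl2 : Real.log 2 ≤ l := by
    rw [hl]
    exact Real.log_le_log (by norm_num) h2
  have hlog2 := Real.log_two_gt_d9
  have hl0 : 0 < l := by linarith
  obtain ⟨R, hR⟩ : ∃ R : ℝ, R = (C + 6) * l := ⟨_, rfl⟩
  have hR6 : 6 * l ≤ R := by
    rw [hR]
    nlinarith
  have hRC : C * l + 4 ≤ R := by
    rw [hR]
    nlinarith
  have hR4 : 4 ≤ R := by nlinarith
  obtain ⟨Γ, hΓ, hΓ'⟩ := part_one N hN H d a B hB R (by linarith)
  have hlogR : 0 < Real.log R := Real.log_pos (by linarith)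
  have hεR : 1 / (8 * (C + 6)) / l ≤ 1 / (8 * R) := by
    rw [hR, div_div]
    apply le_of_eq
    congr 1
    ring
  constructor
  · intro hsub hdens
    have hlog : Real.log (2 + l) ≤ 2 * Real.log R := by
      have h3 : 2 + l ≤ R ^ 2 := by nlinarith
      have h4 := Real.log_le_log (by linarith) h3
      rw [Real.log_pow] at h4
      push_cast at h4
      exact h4
    refine ⟨Γ, 1 / (8 * R), by positivity, ?_, hεR, hΓ'.trans hsub⟩
    have h5 : Real.log ((N : ℝ) / ((convProg H a B).ncard : ℝ)) / Real.log R ≤ 2 * (C * l) := by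
      rw [div_le_iff₀ hlogR]
      calc Real.log ((N : ℝ) / ((convProg H a B).ncard : ℝ)) ≤ C * l * Real.log (2 + l) := hdens
        _ ≤ C * l * (2 * Real.log R) := by
            apply mul_le_mul_of_nonneg_left hlog
            positivity
        _ = 2 * (C * l) * Real.log R := by ring
    calc (Γ.card : ℝ) ≤ 215 * d + 366 +
          5 * (Real.log ((N : ℝ) / ((convProg H a B).ncard : ℝ)) / Real.log R) := hΓ
      _ ≤ 215 * (C * l) + 530 * l + 5 * (2 * (C * l)) := by linarith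
      _ = (225 * C + 530) * l := by ring
  · intro hA
    have hcard : (convProg H a B).ncard = A.card := by
      rw [← hA, Set.ncard_coe_finset]
    rw [hcard, ← hl] at hΓ
    have h0B : (0 : Fin d → ℝ) ∈ B := by
      obtain ⟨S, hS, -⟩ := Pool.Agent.X164.BO.body_seminorm B hB.1 hB.2.1 hB.2.2.1 hB.2.2.2
      exact (hS 0).mpr (by simp)
    have h0A : (0 : ZMod N) ∈ A := by
      rw [← Finset.mem_coe, hA]
      refine ⟨0, H.zero_mem, 0, ?_, by simp⟩
      convert h0B using 1
      funext i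
      simp
    refine ⟨Γ, 1 / (8 * R), by positivity, ?_, hεR, ?_, ?_⟩
    · have h5 : l / Real.log R ≤ l := by
        rw [div_le_iff₀ hlogR]
        have h6 : Real.log 4 ≤ Real.log R := Real.log_le_log (by norm_num) hR4
        have h7 : (1 : ℝ) ≤ Real.log 4 := by
          rw [show (4 : ℝ) = 2 ^ 2 by norm_num, Real.log_pow]
          push_cast
          linarith
        nlinarith
      calc (Γ.card : ℝ) ≤ 215 * d + 366 + 5 * (l / Real.log R) := hΓ
        _ ≤ 215 * (C * l) + 535 * l + 5 * l := by linarith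
        _ = (215 * C + 540) * l := by ring
    · rw [hA]; exact hΓ'
    · intro x hx
      have hx' : x ∈ A := by
        rw [← Finset.mem_coe, hA]
        exact hΓ' hx
      exact ⟨x, hx', 0, h0A, 0, h0A, 0, h0A, by simp⟩

end Pool.Agent.Results.MP_169871_nt.ImproperProgressions
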