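import Pool.Agent.X164.BO.En2

/-!
# Q1 for sets of large additive energy

Let `E(A)` be the number of the quadruples in `A` with `a_1 + a_2 = a_3 + a_4`, and `F(K) = exp (10^7 (1 + log K)(1 + log (1 + log K)))`,
so `F(K) = K^O(1 + log log K)` for `K ≥ 3`. If `E(A) ≥ |A|³ / K`, in particular if `|A + A| ≤ K |A|`, then for all `R ≥ F(K)` the set
`2A - 2A` contains a Bohr set with at most `5 log (1/α) / log R + F(K)` frequencies and radius `1 / (8 R)`. Hence the conclusion
of Q1 holds, with absolute constants, for all sets with `F(K) ≤ log (1/α)`, that is for all `K` up to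
`exp (c log log (1/α) / log log log (1/α))`; and for every fixed `K` it holds for all `α ≤ 1/2` with constants depending on `K`.

Steps: the Balog–Szemerédi–Gowers theorem and the near-polynomial Freiman–Ruzsa theorem (both from the starting library) give
a set `B ⊆ A` that is dense on a convex coset progression of dimension `O(log 2K)`, which is in general not proper; it is
dense on a box progression (`X164/BO/En`); for such sets `2B - 2B` contains a Bohr set (`X164/BO/Imp`, by lifting the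
starting result `DenseOnProgressions` from proper to improper progressions).
-/

set_option autoImplicit false

namespace Pool.Agent.Results.MP_169871_nt.LargeEnergy

open scoped Pointwise

/-- The Bohr set `B(Γ, ε) = {x ∈ ℤ/N : ‖γ x / N‖ ≤ ε for all γ ∈ Γ}`; the norm is the distance to the nearest
integer. -/
def bohr {N : ℕ} (Γ : Finset (ZMod N)) (ε : ℝ) : Set (ZMod N) :=
  {x | ∀ γ ∈ Γ, |((γ * x).val : ℝ) / (N : ℝ) - ((round (((γ * x).val : ℝ) / (N : ℝ)) : ℤ) : ℝ)| ≤ ε}

/-- The set `2A - 2A`. -/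
def twoAMinusTwoA {N : ℕ} (A : Finset (ZMod N)) : Set (ZMod N) :=
  {x | ∃ a₁ ∈ A, ∃ a₂ ∈ A, ∃ a₃ ∈ A, ∃ a₄ ∈ A, x = a₁ + a₂ - a₃ - a₄}

/-- The additive energy of `A`: the number of quadruples in `A` with `a_1 + a_2 = a_3 + a_4`. -/
def energy {N : ℕ} (A : Finset (ZMod N)) : ℕ :=
  (((A ×ˢ A) ×ˢ (A ×ˢ A)).filter fun p => p.1.1 + p.1.2 = p.2.1 + p.2.2).card

/-- `F(K) = exp (10^7 (1 + log K)(1 + log (1 + log K)))`. -/
noncomputable def F (K : ℝ) : ℝ :=
  Real.exp (10 ^ 7 * ((1 + Real.log K) * (1 + Real.log (1 + Real.log K))))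

theorem energy_eq {N : ℕ} (A : Finset (ZMod N)) : energy A = A.addEnergy A := by
  classical
  unfold energy Finset.addEnergy
  refine Finset.card_nbij' (fun p => ((p.1.1, p.2.1), (p.1.2, p.2.2)))
    (fun p => ((p.1.1, p.2.1), (p.1.2, p.2.2))) ?_ ?_ ?_ ?_
  · intro p hp
    simp only [Finset.coe_filter, Finset.mem_product, Set.mem_ofPred_eq] at hp ⊢
    exact ⟨⟨⟨hp.1.1.1, hp.1.2.1⟩, hp.1.1.2, hp.1.2.2⟩, hp.2⟩
  · intro p hp
    simp only [Finset.coe_filter, Finset.mem_product, Set.mem_ofPred_eq] at hp ⊢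
    exact ⟨⟨⟨hp.1.1.1, hp.1.2.1⟩, hp.1.1.2, hp.1.2.2⟩, hp.2⟩
  · intro p _; rfl
  · intro p _; rfl

/-- **Q1 for sets of large additive energy.** -/
theorem result :
    -- small doubling implies large energy
    (∀ (N : ℕ), 0 < N → ∀ (A : Finset (ZMod N)) (K : ℝ), A.Nonempty →
      ((A + A).card : ℝ) ≤ K * A.card → (A.card : ℝ) ^ 3 ≤ K * energy A) ∧
    (∀ (N : ℕ), 0 < N → ∀ A : Finset (ZMod N), A.Nonempty → ∀ K : ℝ, 1 ≤ K →
      (A.card : ℝ) ^ 3 ≤ K * energy A →
      -- the trade-off between the number of frequencies and the radius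
      (∀ R : ℝ, F K ≤ R → ∃ Γ : Finset (ZMod N),
        (Γ.card : ℝ) ≤ 5 * (Real.log ((N : ℝ) / (A.card : ℝ)) / Real.log R) + F K ∧
        bohr Γ (1 / (8 * R)) ⊆ twoAMinusTwoA A) ∧
      -- Q1 with absolute constants if `F(K) ≤ log (1/α)`
      (F K ≤ Real.log ((N : ℝ) / (A.card : ℝ)) → ∃ Γ : Finset (ZMod N),
        (Γ.card : ℝ) ≤ 6 * Real.log ((N : ℝ) / (A.card : ℝ)) ∧
        bohr Γ ((1 / 8) / Real.log ((N : ℝ) / (A.card : ℝ))) ⊆ twoAMinusTwoA A) ∧
      -- Q1 with constants depending on `K` for all densities `α ≤ 1/2`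
      ((A.card : ℝ) / (N : ℝ) ≤ 1 / 2 → ∃ Γ : Finset (ZMod N),
        (Γ.card : ℝ) ≤ (5 + 2 * F K) * Real.log ((N : ℝ) / (A.card : ℝ)) ∧
        bohr Γ ((1 / (16 * F K + 8)) / Real.log ((N : ℝ) / (A.card : ℝ))) ⊆ twoAMinusTwoA A)) := by
  refine ⟨fun N hN A K hA hK => ?_, fun N hN A hA K hK hE => ?_⟩
  · have hAr : (0 : ℝ) < A.card := by exact_mod_cast hA.card_pos
    have h1 := Finset.le_card_add_mul_addEnergy A A
    have h2 : (A.card : ℝ) ^ 2 * (A.card : ℝ) ^ 2 ≤ ((A + A).card : ℝ) * (energy A : ℝ) := by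
      rw [energy_eq]
      exact_mod_cast h1
    have h3 : (A.card : ℝ) * (A.card : ℝ) ^ 3 ≤ (A.card : ℝ) * (K * energy A) := by
      calc (A.card : ℝ) * (A.card : ℝ) ^ 3 = (A.card : ℝ) ^ 2 * (A.card : ℝ) ^ 2 := by ring
        _ ≤ ((A + A).card : ℝ) * (energy A : ℝ) := h2
        _ ≤ (K * A.card) * (energy A : ℝ) := by gcongr
        _ = _ := by ring
    exact le_of_mul_le_mul_left h3 hAr
  · have : NeZero N := ⟨hN.ne'⟩
    have hNr : (0 : ℝ) < N := by exact_mod_cast hN
    have hAr : (0 : ℝ) < A.card := by exact_mod_cast hA.card_pos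
    have key : ∀ R : ℝ, F K ≤ R → ∃ Γ : Finset (ZMod N),
        (Γ.card : ℝ) ≤ 5 * (Real.log ((N : ℝ) / (A.card : ℝ)) / Real.log R) + F K ∧
        bohr Γ (1 / (8 * R)) ⊆ twoAMinusTwoA A := by
      intro R hR
      obtain ⟨Γ, h1, h2⟩ := Pool.Agent.X164.BO.energy A hA K hK (by rw [← energy_eq]; exact hE) R hR
      exact ⟨Γ, h1, fun x hx => h2 x fun g hg => hx g hg⟩
    obtain ⟨l, hl⟩ : ∃ l : ℝ, l = Real.log ((N : ℝ) / (A.card : ℝ)) := ⟨_, rfl⟩
    rw [← hl] at key ⊢
    have hκ0 : 0 ≤ Real.log K := Real.log_nonneg hK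
    have hl0 : 0 ≤ Real.log (1 + Real.log K) := Real.log_nonneg (by linarith)
    have hF3 : Real.exp 1 ≤ F K := by
      unfold F
      apply Real.exp_le_exp.mpr
      nlinarith [mul_nonneg hκ0 hl0]
    have hF1 : 1 ≤ F K := by
      have := Real.exp_one_gt_d9
      linarith
    have hlogR : ∀ R : ℝ, F K ≤ R → 1 ≤ Real.log R := by
      intro R hR
      rw [Real.le_log_iff_exp_le (by linarith)]
      linarith
    refine ⟨key, fun hFl => ?_, fun hα => ?_⟩
    · obtain ⟨Γ, h1, h2⟩ := key l hFl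
      refine ⟨Γ, ?_, ?_⟩
      · have h3 : l / Real.log l ≤ l := div_le_self (by linarith) (hlogR l hFl)
        linarith
      · rw [div_div]
        exact h2
    · have h2 : (2 : ℝ) ≤ (N : ℝ) / (A.card : ℝ) := by
        rw [div_le_iff₀ hNr] at hα
        rw [le_div_iff₀ hAr]
        linarith
      have hl2 : Real.log 2 ≤ l := by
        rw [hl]
        exact Real.log_le_log (by norm_num) h2
      have hlog2 := Real.log_two_gt_d9
      have hlpos : 0 < l := by linarith
      obtain ⟨R, hR⟩ : ∃ R : ℝ, R = (2 * F K + 1) * l := ⟨_, rfl⟩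
      have hRF : F K ≤ R := by
        rw [hR]
        nlinarith
      obtain ⟨Γ, h3, h4⟩ := key R hRF
      refine ⟨Γ, ?_, ?_⟩
      · have h5 : l / Real.log R ≤ l := div_le_self hlpos.le (hlogR R hRF)
        have h6 : F K ≤ 2 * F K * l := by nlinarith
        calc (Γ.card : ℝ) ≤ 5 * (l / Real.log R) + F K := h3
          _ ≤ 5 * l + 2 * F K * l := by linarith
          _ = _ := by ring
      · have h5 : 1 / (16 * F K + 8) / l = 1 / (8 * R) := by
          rw [hR, div_div]
          congr 1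
          ring
        rw [h5]
        exact h4

end Pool.Agent.Results.MP_169871_nt.LargeEnergy
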