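import Pool.Agent.X164.BO.Tr4

/-!
# Q1 is decided by any infinite set of moduli, and by progressions

Let `𝓜` be any infinite set of moduli, for instance the powers of `2`, or the primes, or a very sparse set. The following
statements are equivalent:

* Q1;
* Q1 for the moduli `N ∈ 𝓜` only;
* for the moduli `N ∈ 𝓜`, the set `2A - 2A` contains a progression `{n_1 a_1 + … + n_d a_d : |n_i| ≤ L_i}`, proper or not,
  with `d ≤ C log (1/α)` and with at least `N exp (- C log (1/α) log (2 + log (1/α)))` elements;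
* the same for sets of integers `A ⊆ {1, …, n}` of density `α ≤ 1/2`, with progressions in `ℤ`.

Steps: Bohr sets are convex progressions and contain large box progressions (discrete John theorem of the starting
library; `X164/BO/Tr`); a progression in `2A' - 2A'`, where `A'` is the set of the `x < M/8` with `x mod N ∈ A`, lifts to
the integers and projects to an improper progression of `ℤ/N` of almost the same density (`Tr2`, `Tr4`); an improper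
progression contains a Bohr set (`X164/BO/Imp`, see the hand-in `ImproperProgressions`, based on the starting result
`ProperProgressions`).
-/

set_option autoImplicit false

namespace Pool.Agent.Results.MP_169871_nt.OneSequenceOfModuli

open Pool.Agent.TH858

/-- The Bohr set `B(Γ, ε) = {x ∈ ℤ/N : ‖γ x / N‖ ≤ ε for all γ ∈ Γ}`; the norm is the distance to the nearest
integer. -/
def bohr {N : ℕ} (Γ : Finset (ZMod N)) (ε : ℝ) : Set (ZMod N) :=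
  {x | ∀ γ ∈ Γ, |((γ * x).val : ℝ) / (N : ℝ) - ((round (((γ * x).val : ℝ) / (N : ℝ)) : ℤ) : ℝ)| ≤ ε}

/-- The set `2A - 2A`. -/
def twoAMinusTwoA {G : Type} [AddCommGroup G] (A : Finset G) : Set G :=
  {x | ∃ a₁ ∈ A, ∃ a₂ ∈ A, ∃ a₃ ∈ A, ∃ a₄ ∈ A, x = a₁ + a₂ - a₃ - a₄}

/-- The progression `{n_1 a_1 + … + n_d a_d : |n_i| ≤ L_i}` (proper or not). -/
def prog {G : Type} [AddCommGroup G] {d : ℕ} (a : Fin d → G) (L : Fin d → ℕ) : Set G :=
  {x | ∃ n : Fin d → ℤ, (∀ i, |n i| ≤ L i) ∧ x = ∑ i, n i • a i}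

/-- The statement Q1 of the problem for the moduli in `𝓜`; for `𝓜 = Set.univ` it is Q1. -/
def QOne (𝓜 : Set ℕ) : Prop :=
  ∃ C : ℝ, 0 < C ∧ ∃ c : ℝ, 0 < c ∧ ∀ N ∈ 𝓜, 0 < N → ∀ A : Finset (ZMod N), A.Nonempty →
    (A.card : ℝ) / (N : ℝ) ≤ 1 / 2 →
    ∃ Γ : Finset (ZMod N), ∃ ε : ℝ, 0 < ε ∧ (Γ.card : ℝ) ≤ C * Real.log ((N : ℝ) / (A.card : ℝ)) ∧
      c / Real.log ((N : ℝ) / (A.card : ℝ)) ≤ ε ∧ bohr Γ ε ⊆ twoAMinusTwoA A

/-- For the moduli in `𝓜` the set `2A - 2A` contains a progression (proper or not) of dimension at most `C log (1/α)` and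
of density at least `exp (- C log (1/α) log (2 + log (1/α)))`. -/
def Prog (𝓜 : Set ℕ) : Prop :=
  ∃ C : ℝ, 0 < C ∧ ∀ N ∈ 𝓜, 0 < N → ∀ A : Finset (ZMod N), A.Nonempty →
    (A.card : ℝ) / (N : ℝ) ≤ 1 / 2 →
    ∃ (d : ℕ) (a : Fin d → ZMod N) (L : Fin d → ℕ),
      (d : ℝ) ≤ C * Real.log ((N : ℝ) / (A.card : ℝ)) ∧
      Real.log ((N : ℝ) / ((prog a L).ncard : ℝ)) ≤
        C * Real.log ((N : ℝ) / (A.card : ℝ)) * Real.log (2 + Real.log ((N : ℝ) / (A.card : ℝ))) ∧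
      prog a L ⊆ twoAMinusTwoA A

/-- The same for sets of integers `A ⊆ {1, …, n}` of density `α ≤ 1/2`, with progressions in `ℤ`. -/
def IntProg : Prop :=
  ∃ C : ℝ, 0 < C ∧ ∀ n : ℕ, 0 < n → ∀ A : Finset ℤ, (∀ x ∈ A, 1 ≤ x ∧ x ≤ n) → A.Nonempty →
    (A.card : ℝ) / (n : ℝ) ≤ 1 / 2 →
    ∃ (d : ℕ) (a : Fin d → ℤ) (L : Fin d → ℕ),
      (d : ℝ) ≤ C * Real.log ((n : ℝ) / (A.card : ℝ)) ∧
      Real.log ((n : ℝ) / ((prog a L).ncard : ℝ)) ≤
        C * Real.log ((n : ℝ) / (A.card : ℝ)) * Real.log (2 + Real.log ((n : ℝ) / (A.card : ℝ))) ∧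
      prog a L ⊆ twoAMinusTwoA A

theorem prog_eq {N d : ℕ} (a : Fin d → ZMod N) (L : Fin d → ℕ) : prog a L = (GP.XX a L : Set (ZMod N)) := by
  ext x
  unfold GP.XX prog GP.ev
  rw [Finset.mem_coe, Finset.mem_image, Set.mem_ofPred_eq]
  constructor
  · rintro ⟨n, hn, rfl⟩
    exact ⟨n, by rw [GP.mem_box]; exact hn, by simp [zsmul_eq_mul]⟩
  · rintro ⟨n, hn, rfl⟩
    rw [GP.mem_box] at hn
    exact ⟨n, hn, by simp [zsmul_eq_mul]⟩

theorem iprog_eq {d : ℕ} (b : Fin d → ℤ) (L : Fin d → ℕ) : prog b L = (Pool.Agent.X164.BO.IX b L : Set ℤ) := by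
  ext x
  unfold Pool.Agent.X164.BO.IX prog
  rw [Finset.mem_coe, Finset.mem_image, Set.mem_ofPred_eq]
  constructor
  · rintro ⟨n, hn, rfl⟩
    exact ⟨n, by rw [GP.mem_box]; exact hn, by simp⟩
  · rintro ⟨n, hn, rfl⟩
    rw [GP.mem_box] at hn
    exact ⟨n, hn, by simp⟩

theorem one_iff (𝓜 : Set ℕ) : QOne 𝓜 ↔ ∃ C c : ℝ, 0 < C ∧ 0 < c ∧ Pool.Agent.X164.BO.QB 𝓜 C c := by
  constructor
  · rintro ⟨C, hC, c, hc, h⟩
    refine ⟨C, c, hC, hc, fun N hN hN0 A hA hα => ?_⟩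
    obtain ⟨Γ, ε, h1, h2, h3, h4⟩ := h N hN hN0 A hA hα
    exact ⟨Γ, ε, h1, h2, h3, fun x hx => h4 fun g hg => hx g hg⟩
  · rintro ⟨C, c, hC, hc, h⟩
    refine ⟨C, hC, c, hc, fun N hN hN0 A hA hα => ?_⟩
    obtain ⟨Γ, ε, h1, h2, h3, h4⟩ := h N hN hN0 A hA hα
    exact ⟨Γ, ε, h1, h2, h3, fun x hx => h4 x fun g hg => hx g hg⟩

theorem prog_iff (𝓜 : Set ℕ) : Prog 𝓜 ↔ ∃ C : ℝ, 0 < C ∧ Pool.Agent.X164.BO.QP 𝓜 C := by
  constructor
  · rintro ⟨C, hC, h⟩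
    refine ⟨C, hC, fun N hN hN0 A hA hα => ?_⟩
    obtain ⟨d, a, L, h1, h2, h3⟩ := h N hN hN0 A hA hα
    rw [prog_eq] at h2 h3
    rw [Set.ncard_coe_finset] at h2
    exact ⟨d, a, L, h1, h2, fun x hx => h3 hx⟩
  · rintro ⟨C, hC, h⟩
    refine ⟨C, hC, fun N hN hN0 A hA hα => ?_⟩
    obtain ⟨d, a, L, h1, h2, h3⟩ := h N hN hN0 A hA hα
    refine ⟨d, a, L, h1, ?_, ?_⟩
    · rw [prog_eq, Set.ncard_coe_finset]
      exact h2
    · rw [prog_eq]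
      exact fun x hx => h3 x hx

theorem int_iff : IntProg ↔ ∃ C : ℝ, 0 < C ∧ Pool.Agent.X164.BO.QI C := by
  constructor
  · rintro ⟨C, hC, h⟩
    refine ⟨C, hC, fun n hn A hA1 hA hα => ?_⟩
    obtain ⟨d, a, L, h1, h2, h3⟩ := h n hn A hA1 hA hα
    rw [iprog_eq] at h2 h3
    rw [Set.ncard_coe_finset] at h2
    exact ⟨d, a, L, h1, h2, fun x hx => h3 hx⟩
  · rintro ⟨C, hC, h⟩
    refine ⟨C, hC, fun n hn A hA1 hA hα => ?_⟩
    obtain ⟨d, a, L, h1, h2, h3⟩ := h n hn A hA1 hA hα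
    refine ⟨d, a, L, h1, ?_, ?_⟩
    · rw [iprog_eq, Set.ncard_coe_finset]
      exact h2
    · rw [iprog_eq]
      exact fun x hx => h3 x hx

/-- **Q1 is decided by any infinite set of moduli, and by progressions.** -/
theorem result (𝓜 : Set ℕ) (h𝓜 : 𝓜.Infinite) :
    (QOne Set.univ ↔ QOne 𝓜) ∧ (QOne Set.univ ↔ Prog 𝓜) ∧ (QOne Set.univ ↔ IntProg) := by
  have h12 : QOne Set.univ → QOne 𝓜 := by
    rintro ⟨C, hC, c, hc, h⟩
    exact ⟨C, hC, c, hc, fun N _ => h N (Set.mem_univ N)⟩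
  have h23 : ∀ 𝓜 : Set ℕ, QOne 𝓜 → Prog 𝓜 := by
    intro 𝓜 h
    obtain ⟨C, c, hC, hc, h⟩ := (one_iff 𝓜).mp h
    exact (prog_iff 𝓜).mpr ⟨_, by positivity, Pool.Agent.X164.BO.QB_QP 𝓜 C c hC hc h⟩
  have h31 : Prog 𝓜 → QOne Set.univ := by
    intro h
    obtain ⟨C, hC, h⟩ := (prog_iff 𝓜).mp h
    exact (one_iff _).mpr ⟨_, _, by positivity, by positivity,
      Pool.Agent.X164.BO.QP_QB 𝓜 h𝓜 C hC h⟩
  have h14 : QOne Set.univ → IntProg := by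
    intro h
    obtain ⟨C, hC, h⟩ := (prog_iff _).mp (h23 _ h)
    exact int_iff.mpr ⟨_, by positivity, Pool.Agent.X164.BO.QP_QI C hC h⟩
  have h41 : IntProg → QOne Set.univ := by
    intro h
    obtain ⟨C, hC, h⟩ := int_iff.mp h
    exact (one_iff _).mpr ⟨_, _, by positivity, by positivity, Pool.Agent.X164.BO.QI_QB C hC h⟩
  exact ⟨⟨h12, fun h => h31 (h23 𝓜 h)⟩, ⟨fun h => h23 𝓜 (h12 h), h31⟩, ⟨h14, h41⟩⟩

end Pool.Agent.Results.MP_169871_nt.OneSequenceOfModuli
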