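import Pool.Agent.X164.BO.Ran

/-!
# Q1 for sets that contain a random point of an improper coset progression

Let `H` be a subgroup of `ℤ/N`, `a_1, …, a_d ∈ ℤ/N` and `L_i ≥ 0` arbitrary, and let `x = t + h + n_1 a_1 + … + n_d a_d` with
`h ∈ H` and `|n_i| ≤ L_i` chosen uniformly at random. No properness is assumed, so `x` need not be uniformly distributed on
the coset progression `t + P`. The theorem says: if `x ∈ A` has probability at least `b / √(log (1/α))`, `d ≤ C log (1/α)` and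
`|P| ≥ N exp (- C log (1/α) log (2 + log (1/α)))`, then the conclusion of Q1 holds for `A`.

For proper progressions (without `H`) this is the starting result `DenseOnProgressions`, which is used: the progression is
lifted to a proper one of almost the same density of `ℤ/(N Q)` by random lifts of the generators and one more generator
(`X164/BO/Lift`, `X164/BO/Imp`, `X164/BO/Ran`).
-/

set_option autoImplicit false

namespace Pool.Agent.Results.MP_169871_nt.RandomPoints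

open Pool.Agent.TH858

/-- The Bohr set `B(Γ, ε) = {x ∈ ℤ/N : ‖γ x / N‖ ≤ ε for all γ ∈ Γ}`; the norm is the distance to the nearest
integer. -/
def bohr {N : ℕ} (Γ : Finset (ZMod N)) (ε : ℝ) : Set (ZMod N) :=
  {x | ∀ γ ∈ Γ, |((γ * x).val : ℝ) / (N : ℝ) - ((round (((γ * x).val : ℝ) / (N : ℝ)) : ℤ) : ℝ)| ≤ ε}

/-- The coset progression `P = H + {n_1 a_1 + … + n_d a_d : |n_i| ≤ L_i}`. -/
def cosetProg {N d : ℕ} (H : AddSubgroup (ZMod N)) (a : Fin d → ZMod N) (L : Fin d → ℕ) : Set (ZMod N) :=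
  {x | ∃ h ∈ H, ∃ n : Fin d → ℤ, (∀ i, |n i| ≤ L i) ∧ x = h + ∑ i, (n i : ZMod N) * a i}

/-- The pairs `(h, n)`, `h ∈ H`, `|n_i| ≤ L_i`, with `t + h + n_1 a_1 + … + n_d a_d ∈ A`. -/
def hits {N d : ℕ} (A : Finset (ZMod N)) (t : ZMod N) (H : AddSubgroup (ZMod N)) (a : Fin d → ZMod N)
    (L : Fin d → ℕ) : Set (ZMod N × (Fin d → ℤ)) :=
  {p | p.1 ∈ H ∧ (∀ i, |p.2 i| ≤ L i) ∧ t + p.1 + ∑ i, (p.2 i : ZMod N) * a i ∈ A}

/-- The probability that `t + h + n_1 a_1 + … + n_d a_d ∈ A` for random `h ∈ H` and `|n_i| ≤ L_i`: the number of hits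
divided by the number `|H| (2 L_1 + 1) … (2 L_d + 1)` of all pairs. -/
noncomputable def prob {N d : ℕ} (A : Finset (ZMod N)) (t : ZMod N) (H : AddSubgroup (ZMod N))
    (a : Fin d → ZMod N) (L : Fin d → ℕ) : ℝ :=
  ((hits A t H a L).ncard : ℝ) / ((Nat.card H : ℝ) * ∏ i, (2 * (L i : ℝ) + 1))

/-- The set `2A - 2A`. -/
def twoAMinusTwoA {N : ℕ} (A : Finset (ZMod N)) : Set (ZMod N) :=
  {x | ∃ a₁ ∈ A, ∃ a₂ ∈ A, ∃ a₃ ∈ A, ∃ a₄ ∈ A, x = a₁ + a₂ - a₃ - a₄}

/-- A set that contains a random point of a coset progression with probability at least `δ`. -/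
theorem part_one (N : ℕ) (hN : 0 < N) (A : Finset (ZMod N)) (t : ZMod N) (H : AddSubgroup (ZMod N))
    (d : ℕ) (a : Fin d → ZMod N) (L : Fin d → ℕ) (δ : ℝ) (hδ : 0 < δ) (hA : δ ≤ prob A t H a L) (R : ℝ)
    (hR : (d : ℝ) + 4 ≤ R) (hδR : 3 ≤ δ * R) :
    ∃ Γ : Finset (ZMod N),
      (Γ.card : ℝ) ≤ 300 * d + 606 + 5 * (Real.log ((N : ℝ) / ((cosetProg H a L).ncard : ℝ)) / Real.log R) +
        288 / δ ^ 2 ∧
      bohr Γ (1 / (8 * R)) ⊆ twoAMinusTwoA A := by
  classical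
  have : NeZero N := ⟨hN.ne'⟩
  set P : Finset (ZMod N) := Finset.univ.filter fun x => x ∈ cosetProg H a L with hP
  have hPc : (cosetProg H a L).ncard = P.card := by
    rw [← Set.ncard_coe_finset]
    congr 1
    ext x
    rw [hP, Finset.mem_coe, Finset.mem_filter]
    exact ⟨fun h => ⟨Finset.mem_univ _, h⟩, fun h => h.2⟩
  have hP0 : P.Nonempty := by
    refine ⟨0, ?_⟩
    rw [hP, Finset.mem_filter]
    exact ⟨Finset.mem_univ _, 0, H.zero_mem, 0, fun i => by simp, by simp⟩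
  set U : Finset (ZMod N × (Fin d → ℤ)) := (Finset.univ ×ˢ GP.box L).filter fun p => p ∈ hits A t H a L
    with hU
  have hUc : (hits A t H a L).ncard = U.card := by
    rw [← Set.ncard_coe_finset]
    congr 1
    ext p
    rw [hU, Finset.mem_coe, Finset.mem_filter, Finset.mem_product, GP.mem_box]
    exact ⟨fun h => ⟨⟨Finset.mem_univ _, h.2.1⟩, h⟩, fun h => h.2⟩
  have hHpos : (0 : ℝ) < Nat.card H := by exact_mod_cast Nat.card_pos
  have hvol : (Nat.card H : ℝ) * ∏ i, (2 * (L i : ℝ) + 1) = (Nat.card H : ℝ) * (GP.box L).card := by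
    rw [GP.card_box]
    push_cast
    rfl
  have hboxpos : (0 : ℝ) < (GP.box L).card := by
    rw [GP.card_box]
    push_cast
    exact Finset.prod_pos fun i _ => by positivity
  obtain ⟨Γ, h1, h2⟩ := Pool.Agent.X164.BO.random_points H a L R δ hR hδ hδR A t U (by
    intro p hp
    rw [hU, Finset.mem_filter, Finset.mem_product] at hp
    exact ⟨hp.2.1, hp.1.2, hp.2.2.2⟩) (by
    unfold prob at hA
    rw [hvol, hUc, le_div_iff₀ (mul_pos hHpos hboxpos)] at hA
    exact hA) P hP0 (by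
    intro x hx
    rw [hP, Finset.mem_filter] at hx
    obtain ⟨-, h, hh, n, hn, rfl⟩ := hx
    exact ⟨h, hh, n, (GP.mem_box L n).mpr hn, rfl⟩)
  refine ⟨Γ, ?_, fun x hx => h2 x fun g hg => hx g hg⟩
  rw [hPc]
  exact h1

/-- **Q1 for sets that contain a random point of a coset progression with probability `≫ 1 / √(log (1/α))`.** -/
theorem result :
    (∀ N : ℕ, 0 < N → ∀ (A : Finset (ZMod N)) (t : ZMod N) (H : AddSubgroup (ZMod N)) (d : ℕ)
      (a : Fin d → ZMod N) (L : Fin d → ℕ) (δ : ℝ), 0 < δ → δ ≤ prob A t H a L →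
      ∀ R : ℝ, (d : ℝ) + 4 ≤ R → 3 ≤ δ * R →
      ∃ Γ : Finset (ZMod N),
        (Γ.card : ℝ) ≤ 300 * d + 606 +
          5 * (Real.log ((N : ℝ) / ((cosetProg H a L).ncard : ℝ)) / Real.log R) + 288 / δ ^ 2 ∧
        bohr Γ (1 / (8 * R)) ⊆ twoAMinusTwoA A) ∧
    (∀ (C b : ℝ), 0 < C → 0 < b → ∀ N : ℕ, 0 < N → ∀ A : Finset (ZMod N), A.Nonempty →
      (A.card : ℝ) / (N : ℝ) ≤ 1 / 2 →
      ∀ (t : ZMod N) (H : AddSubgroup (ZMod N)) (d : ℕ) (a : Fin d → ZMod N) (L : Fin d → ℕ),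
      (d : ℝ) ≤ C * Real.log ((N : ℝ) / (A.card : ℝ)) →
      Real.log ((N : ℝ) / ((cosetProg H a L).ncard : ℝ)) ≤
        C * Real.log ((N : ℝ) / (A.card : ℝ)) * Real.log (2 + Real.log ((N : ℝ) / (A.card : ℝ))) →
      b / √(Real.log ((N : ℝ) / (A.card : ℝ))) ≤ prob A t H a L →
      ∃ (Γ : Finset (ZMod N)) (ε : ℝ), 0 < ε ∧
        (Γ.card : ℝ) ≤ (310 * C + 880 + 288 / b ^ 2) * Real.log ((N : ℝ) / (A.card : ℝ)) ∧
        (1 / (8 * (C + 6 + 5 / b))) / Real.log ((N : ℝ) / (A.card : ℝ)) ≤ ε ∧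
        bohr Γ ε ⊆ twoAMinusTwoA A) := by
  refine ⟨part_one, fun C b hC hb N hN A hAne hα t H d a L hd hdens hprob => ?_⟩
  obtain ⟨l, hl⟩ : ∃ l : ℝ, l = Real.log ((N : ℝ) / (A.card : ℝ)) := ⟨_, rfl⟩
  rw [← hl] at hd hdens hprob ⊢
  have hNpos : (0 : ℝ) < N := by exact_mod_cast hN
  have hApos : (0 : ℝ) < A.card := by exact_mod_cast hAne.card_pos
  have h2 : (2 : ℝ) ≤ (N : ℝ) / (A.card : ℝ) := by
    rw [div_le_iff₀ hNpos] at hα
    rw [le_div_iff₀ hApos]
    linarith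
  have hl2 : Real.log 2 ≤ l := by
    rw [hl]
    exact Real.log_le_log (by norm_num) h2
  have hlog2 := Real.log_two_gt_d9
  have hl0 : 0 < l := by linarith
  have hsq : 0 < √l := Real.sqrt_pos.mpr hl0
  have hsq2 : √l * √l = l := Real.mul_self_sqrt hl0.le
  obtain ⟨R, hR⟩ : ∃ R : ℝ, R = (C + 6 + 5 / b) * l := ⟨_, rfl⟩
  have h5b : 0 < 5 / b := by positivity
  have h5bl : 0 < 5 / b * l := mul_pos h5b hl0
  have hCl : 0 < C * l := mul_pos hC hl0
  have hRe : R = C * l + 6 * l + 5 / b * l := by rw [hR]; ring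
  have hR4 : 4 ≤ R := by linarith
  have hlogR : 0 < Real.log R := Real.log_pos (by linarith)
  have hs8 : 3 / 5 ≤ √l := by
    apply Real.le_sqrt_of_sq_le
    norm_num
    linarith
  obtain ⟨Γ, hΓ, hΓ'⟩ := part_one N hN A t H d a L (b / √l) (by positivity) hprob R (by linarith) (by
    have e1 : b / √l * R ≥ b / √l * (5 / b * l) := by
      apply mul_le_mul_of_nonneg_left _ (by positivity)
      linarith
    have e2 : b / √l * (5 / b * l) = 5 * √l := by
      have e3 : b / √l * (5 / b * l) = 5 * (l / √l) := by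
        field_simp
      rw [e3, Real.div_sqrt]
    linarith)
  have hlog : Real.log (2 + l) ≤ 2 * Real.log R := by
    have h3 : 2 + l ≤ R ^ 2 := by nlinarith
    have h4 := Real.log_le_log (by linarith) h3
    rw [Real.log_pow] at h4
    push_cast at h4
    exact h4
  refine ⟨Γ, 1 / (8 * R), by positivity, ?_, ?_, hΓ'⟩
  · have h5 : Real.log ((N : ℝ) / ((cosetProg H a L).ncard : ℝ)) / Real.log R ≤ 2 * (C * l) := by
      rw [div_le_iff₀ hlogR]
      calc Real.log ((N : ℝ) / ((cosetProg H a L).ncard : ℝ)) ≤ C * l * Real.log (2 + l) := hdens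
        _ ≤ C * l * (2 * Real.log R) := by
            apply mul_le_mul_of_nonneg_left hlog
            positivity
        _ = 2 * (C * l) * Real.log R := by ring
    have h6 : 288 / (b / √l) ^ 2 = 288 / b ^ 2 * l := by
      rw [div_pow, Real.sq_sqrt hl0.le]
      field_simp
    rw [h6] at hΓ
    have h7 : (310 * C + 880 + 288 / b ^ 2) * l = 310 * (C * l) + 880 * l + 288 / b ^ 2 * l := by ring
    rw [h7]
    linarith
  · rw [hR, div_div]
    apply le_of_eq
    congr 1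
    ring

end Pool.Agent.Results.MP_169871_nt.RandomPoints
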